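import Mathlib
import Pool.Agent.R779.FJ.Col

/-!
Extensions whose kernel is a linear group over `K` on which the elements act semilinearly.
-/

set_option autoImplicit false

namespace Pool.Agent.R632.SL

open Matrix Polynomial

section Fld

variable {K : Type} [Field K] (σ : K ≃+* K)

/-- The fixed field of `σ`. -/
def fix : Subfield K := (σ : K →+* K).eqLocusField (RingHom.id K)

theorem mem_fix {x : K} : x ∈ fix σ ↔ σ x = x := Iff.rfl

/-- `σ` as an automorphism over its fixed field. -/
def sg : K ≃ₐ[fix σ] K := AlgEquiv.ofRingEquiv (f := σ) (fun x => (mem_fix σ).1 x.2)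

theorem sg_apply (x : K) : sg σ x = σ x := rfl

/-- An element with a finite orbit is integral over the fixed field. -/
theorem integral (x : K) (m : ℕ) (hm : 0 < m) (hx : (σ : K → K)^[m] x = x) :
    IsIntegral (fix σ) x := by
  classical
  let p : K[X] := ∏ i ∈ Finset.range m, (X - C ((σ : K → K)^[i] x))
  have hmon : p.Monic := monic_prod_of_monic _ _ fun i _ => monic_X_sub_C _
  have hfix : p.map (σ : K →+* K) = p := by
    have h1 : p.map (σ : K →+* K) =
        ∏ i ∈ Finset.range m, (X - C ((σ : K → K)^[i + 1] x)) := by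
      simp only [p, Polynomial.map_prod, Polynomial.map_sub, map_X, map_C]
      refine Finset.prod_congr rfl fun i _ => ?_
      rw [Function.iterate_succ_apply']
      rfl
    rw [h1]
    obtain ⟨m, rfl⟩ := Nat.exists_eq_succ_of_ne_zero hm.ne'
    rw [Finset.prod_range_succ, hx]
    simp only [p]
    rw [Finset.prod_range_succ' (fun i => X - C ((σ : K → K)^[i] x))]
    rfl
  have hlift : p ∈ lifts (algebraMap (fix σ) K) := by
    rw [lifts_iff_coeff_lifts]
    intro n
    refine ⟨⟨p.coeff n, ?_⟩, rfl⟩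
    rw [mem_fix]
    conv_rhs => rw [← hfix]
    rw [coeff_map]
    rfl
  obtain ⟨q, hq, -, hqm⟩ := lifts_and_degree_eq_and_monic hlift hmon
  refine ⟨q, hqm, ?_⟩
  rw [← eval_map, hq, eval_prod]
  apply Finset.prod_eq_zero (Finset.mem_range.2 hm)
  simp

end Fld

section Lin

variable {K : Type} [Field K] (k : Subfield K) {n : ℕ}

/-- The operator of a matrix. -/
def op : GL (Fin n) K →* ((Fin n → K) ≃ₗ[k] (Fin n → K)) where
  toFun A :=
    { toFun := fun v => A.1.mulVec v
      invFun := fun v => (A⁻¹).1.mulVec v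
      map_add' := fun v w => Matrix.mulVec_add _ _ _
      map_smul' := fun c v => by
        simp only [RingHom.id_apply]
        exact Matrix.mulVec_smul _ (c : K) v
      left_inv := fun v => by
        change (A⁻¹).1.mulVec (A.1.mulVec v) = v
        rw [Matrix.mulVec_mulVec, ← Units.val_mul, inv_mul_cancel, Units.val_one,
          Matrix.one_mulVec]
      right_inv := fun v => by
        change A.1.mulVec ((A⁻¹).1.mulVec v) = v
        rw [Matrix.mulVec_mulVec, ← Units.val_mul, mul_inv_cancel, Units.val_one,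
          Matrix.one_mulVec] }
  map_one' := by
    ext1 v
    change (1 : Matrix (Fin n) (Fin n) K).mulVec v = v
    rw [Matrix.one_mulVec]
  map_mul' A B := by
    ext1 v
    change (A.1 * B.1).mulVec v = A.1.mulVec (B.1.mulVec v)
    rw [Matrix.mulVec_mulVec]

theorem op_apply (A : GL (Fin n) K) (v : Fin n → K) : op k A v = A.1.mulVec v := rfl

variable {V : Type} [AddCommGroup V] [Module k V]

/-- The stabilizer of a subspace. -/
def stab (U : Submodule k V) : Subgroup (V ≃ₗ[k] V) where
  carrier := {h | ∀ v, h v ∈ U ↔ v ∈ U}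
  one_mem' := fun _ => Iff.rfl
  mul_mem' := fun {a b} ha hb v => (ha (b v)).trans (hb v)
  inv_mem' := fun {a} ha v => by
    have h := ha (a⁻¹ v)
    have h2 : a (a⁻¹ v) = v := LinearEquiv.apply_symm_apply a v
    rw [h2] at h
    exact h.symm

/-- Restriction to a subspace. -/
def res (U : Submodule k V) : stab k U →* (U ≃ₗ[k] U) where
  toFun h :=
    { toFun := fun v => ⟨h.1 v, (h.2 v).2 v.2⟩
      invFun := fun v => ⟨(h⁻¹).1 v, ((h⁻¹).2 v).2 v.2⟩
      map_add' := fun _ _ => Subtype.ext (map_add h.1 _ _)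
      map_smul' := fun _ _ => Subtype.ext (map_smul h.1 _ _)
      left_inv := fun v => Subtype.ext (LinearEquiv.symm_apply_apply h.1 v)
      right_inv := fun v => Subtype.ext (LinearEquiv.apply_symm_apply h.1 v) }
  map_one' := rfl
  map_mul' _ _ := rfl

theorem res_apply (U : Submodule k V) (h : stab k U) (v : U) : ((res k U h v : U) : V) = h.1 v := rfl

end Lin

section Emb

/-- The automorphisms of a space of finite dimension over a subfield are matrices over `K`. -/
theorem emb {K : Type} [Field K] (k : Subfield K) (U : Type) [AddCommGroup U] [Module k U]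
    [FiniteDimensional k U] : ∃ (m : ℕ) (f : (U ≃ₗ[k] U) →* GL (Fin m) K),
      Function.Injective f := by
  let b := Module.finBasis k U
  refine ⟨Module.finrank k U, (Units.map
    (((algebraMap k K).mapMatrix.toMonoidHom.comp
      ((LinearMap.toMatrixAlgEquiv b).toMonoidHom)))).comp
    (LinearMap.GeneralLinearGroup.generalLinearEquiv k U).symm.toMonoidHom, ?_⟩
  rw [MonoidHom.coe_comp]
  refine Function.Injective.comp ?_ (MulEquiv.injective _)
  intro x y hxy
  have h1 := congrArg Units.val hxy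
  apply Units.ext
  have h2 : Function.Injective (((algebraMap k K).mapMatrix.toMonoidHom.comp
      ((LinearMap.toMatrixAlgEquiv b : Module.End k U ≃ₐ[k] _).toMonoidHom :
        Module.End k U →* Matrix (Fin (Module.finrank k U)) (Fin (Module.finrank k U)) k))) := by
    rw [MonoidHom.coe_comp]
    refine Function.Injective.comp ?_ (AlgEquiv.injective _)
    intro A B hAB
    ext i j
    have := congrFun (congrFun hAB i) j
    simpa using this
  exact h2 h1

end Emb

section Stable

variable {K : Type} [Field K] (σ : K ≃+* K)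

/-- A finite set generates, with its orbits, a finite extension of the fixed field which is stable
under `σ`. -/
theorem exists_stable (hσ : ∀ x : K, ∃ m : ℕ, 0 < m ∧ (σ : K → K)^[m] x = x) (S : Set K)
    (hS : S.Finite) : ∃ L : IntermediateField (fix σ) K, FiniteDimensional (fix σ) L ∧ S ⊆ L ∧
      ∀ x : K, σ x ∈ L ↔ x ∈ L := by
  classical
  choose m hm hmx using hσ
  let S' : Set K := ⋃ x ∈ S, (fun i : ℕ => (σ : K → K)^[i] x) '' (Set.Iio (m x))
  have hS'fin : S'.Finite :=
    hS.biUnion fun x _ => (Set.finite_Iio (m x)).image _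
  have hfin : Finite S' := hS'fin.to_subtype
  have hSS' : S ⊆ S' := fun x hx => Set.mem_biUnion hx ⟨0, hm x, rfl⟩
  have hall : ∀ x ∈ S, ∀ i : ℕ, (σ : K → K)^[i] x ∈ S' := by
    intro x hx i
    refine Set.mem_biUnion hx ⟨i % m x, Nat.mod_lt _ (hm x), ?_⟩
    exact Function.IsPeriodicPt.iterate_mod_apply (hmx x) i
  have himg : (sg σ) '' S' = S' := by
    apply Set.Subset.antisymm
    · rintro _ ⟨y, hy, rfl⟩
      obtain ⟨x, hx, i, -, rfl⟩ := Set.mem_iUnion₂.1 hy
      have := hall x hx (i + 1)
      rw [Function.iterate_succ_apply'] at this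
      exact this
    · intro y hy
      obtain ⟨x, hx, i, -, rfl⟩ := Set.mem_iUnion₂.1 hy
      refine ⟨(σ : K → K)^[i + (m x - 1)] x, hall x hx _, ?_⟩
      change σ _ = _
      rw [← Function.iterate_succ_apply' (σ : K → K)]
      have : (i + (m x - 1)).succ = i + m x := by have := hm x; omega
      rw [this, Function.iterate_add_apply, hmx]
  let L : IntermediateField (fix σ) K := IntermediateField.adjoin (fix σ) S'
  have hmap : L.map (sg σ).toAlgHom = L := by
    change (IntermediateField.adjoin (fix σ) S').map (sg σ).toAlgHom = _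
    rw [IntermediateField.adjoin_map]
    exact congrArg _ himg
  refine ⟨L, ?_, fun x hx => IntermediateField.subset_adjoin _ _ (hSS' hx), fun x => ?_⟩
  · exact IntermediateField.finiteDimensional_adjoin fun x _ => integral σ x (m x) (hm x) (hmx x)
  · constructor
    · intro h
      rw [← hmap] at h
      obtain ⟨y, hy, hyx⟩ := h
      have : y = x := σ.injective hyx
      rwa [← this]
    · intro h
      rw [← hmap]
      exact ⟨x, h, rfl⟩

end Stable

section Real

open Pool.Agent.Y110.FJ

variable {K : Type} [Field K] (σ : K ≃+* K) {n : ℕ}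

/-- The coordinatewise action of `σ`. -/
def su : (Fin n → K) ≃ₗ[fix σ] (Fin n → K) :=
  LinearEquiv.piCongrRight fun _ => (sg σ).toLinearEquiv

theorem su_apply (v : Fin n → K) (i : Fin n) : su σ v i = σ (v i) := rfl

theorem su_conj (A : GL (Fin n) K) :
    su σ * op (fix σ) A * (su σ)⁻¹ = op (fix σ) (Matrix.GeneralLinearGroup.map (σ : K →+* K) A) := by
  rw [mul_inv_eq_iff_eq_mul]
  ext v i
  change σ ((A.1.mulVec v) i) = ((A.1.map σ).mulVec (fun i => σ (v i))) i
  simp [Matrix.mulVec, dotProduct, map_sum]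

/-- The vectors with coordinates in `L`. -/
def UU (L : IntermediateField (fix σ) K) : Submodule (fix σ) (Fin n → K) where
  carrier := {v | ∀ i, v i ∈ L}
  add_mem' := fun ha hb i => L.add_mem (ha i) (hb i)
  zero_mem' := fun _ => L.zero_mem
  smul_mem' := fun _ _ hv i => L.smul_mem (hv i)

theorem mem_UU (L : IntermediateField (fix σ) K) (v : Fin n → K) :
    v ∈ UU σ L ↔ ∀ i, v i ∈ L := Iff.rfl

instance (L : IntermediateField (fix σ) K) [FiniteDimensional (fix σ) L] :
    FiniteDimensional (fix σ) (UU (n := n) σ L) := by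
  let f : UU (n := n) σ L →ₗ[fix σ] (Fin n → L) :=
    { toFun := fun v i => ⟨v.1 i, v.2 i⟩
      map_add' := fun _ _ => rfl
      map_smul' := fun _ _ => rfl }
  refine FiniteDimensional.of_injective f ?_
  intro v w h
  apply Subtype.ext
  funext i
  exact congrArg Subtype.val (congrFun h i)

theorem mulVec_mem (L : IntermediateField (fix σ) K) (A : Matrix (Fin n) (Fin n) K)
    (hA : ∀ i j, A i j ∈ L) (v : Fin n → K) (hv : v ∈ UU σ L) : A.mulVec v ∈ UU σ L := by
  intro i
  change ∑ j, A i j * v j ∈ L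
  exact L.sum_mem fun j _ => L.mul_mem (hA i j) (hv j)

theorem op_mem_stab (L : IntermediateField (fix σ) K) (A : GL (Fin n) K)
    (hA : ∀ i j, A.1 i j ∈ L) (hA' : ∀ i j, (A⁻¹).1 i j ∈ L) :
    op (fix σ) A ∈ stab (fix σ) (UU σ L) := by
  intro v
  constructor
  · intro h
    have h1 := mulVec_mem σ L (A⁻¹).1 hA' _ h
    have h2 : (A⁻¹).1.mulVec (op (fix σ) A v) = v := by
      rw [op_apply, Matrix.mulVec_mulVec, ← Units.val_mul, inv_mul_cancel, Units.val_one,
        Matrix.one_mulVec]
    rwa [h2] at h1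
  · exact mulVec_mem σ L A.1 hA v

theorem op_inj (L : IntermediateField (fix σ) K) (A : GL (Fin n) K)
    (h : ∀ v ∈ UU σ L, op (fix σ) A v = v) : A = 1 := by
  apply Units.ext
  ext i j
  have h1 := h (Pi.single j 1) (fun i => by
    by_cases hij : i = j
    · subst hij
      rw [Pi.single_eq_same]
      exact L.one_mem
    · rw [Pi.single_eq_of_ne hij]
      exact L.zero_mem)
  have h2 := congrFun h1 i
  rw [op_apply, Matrix.mulVec_single_one] at h2
  change A.1 i j = (1 : Matrix (Fin n) (Fin n) K) i j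
  change A.1 i j = _ at h2
  rw [h2, Matrix.one_apply, Pi.single_apply]

/-- Realization of a partial semilinear conjugation in a group of matrices. -/
theorem realize (hσ : ∀ x : K, ∃ m : ℕ, 0 < m ∧ (σ : K → K)^[m] x = x) {H : Type} [Group H]
    (f : H →* GL (Fin n) K) (hf : Function.Injective f) (S : Set H) (hS : S.Finite)
    (hgen : Subgroup.closure S = ⊤) (T : GL (Fin n) K) :
    ∃ (m : ℕ) (F : H →* GL (Fin m) K) (p : GL (Fin m) K), Function.Injective F ∧
      ∀ x y : H, f y = T * Matrix.GeneralLinearGroup.map (σ : K →+* K) (f x) * T⁻¹ →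
        F y = p * F x * p⁻¹ := by
  classical
  let en : GL (Fin n) K → Set K := fun A =>
    Set.range (fun q : Fin n × Fin n => A.1 q.1 q.2) ∪
      Set.range (fun q : Fin n × Fin n => (A⁻¹).1 q.1 q.2)
  have hen : ∀ A, (en A).Finite := fun A => (Set.finite_range _).union (Set.finite_range _)
  obtain ⟨L, hfd, hSL, hst⟩ := exists_stable σ hσ (en T ∪ ⋃ x ∈ S, en (f x))
    ((hen T).union (hS.biUnion fun x _ => hen _))
  have h1 : ∀ x : H, op (fix σ) (f x) ∈ stab (fix σ) (UU σ L) := by
    have h2 : (⊤ : Subgroup H) ≤ (stab (fix σ) (UU σ L)).comap ((op (fix σ)).comp f) := by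
      rw [← hgen, Subgroup.closure_le]
      intro x hx
      refine op_mem_stab σ L (f x) (fun i j => hSL (Or.inr ?_)) (fun i j => hSL (Or.inr ?_))
      · exact Set.mem_biUnion hx (Or.inl ⟨(i, j), rfl⟩)
      · exact Set.mem_biUnion hx (Or.inr ⟨(i, j), rfl⟩)
    exact fun x => h2 (Subgroup.mem_top x)
  have h3 : op (fix σ) T * su σ ∈ stab (fix σ) (UU σ L) := by
    refine Subgroup.mul_mem _ (op_mem_stab σ L T (fun i j => hSL (Or.inl (Or.inl ⟨(i, j), rfl⟩)))
      (fun i j => hSL (Or.inl (Or.inr ⟨(i, j), rfl⟩)))) ?_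
    intro v
    exact forall_congr' fun i => hst (v i)
  let g : H →* stab (fix σ) (UU (n := n) σ L) := ((op (fix σ)).comp f).codRestrict _ h1
  obtain ⟨m, e, he⟩ := emb (fix σ) (UU (n := n) σ L)
  refine ⟨m, e.comp ((res (fix σ) (UU σ L)).comp g), e (res (fix σ) (UU σ L) ⟨_, h3⟩), ?_, ?_⟩
  · rw [MonoidHom.coe_comp]
    refine he.comp ?_
    rw [injective_iff_map_eq_one]
    intro x hx
    apply hf
    rw [map_one]
    apply op_inj σ L
    intro v hv
    have h4 := congrArg (fun h : UU (n := n) σ L ≃ₗ[fix σ] UU (n := n) σ L =>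
      ((h ⟨v, hv⟩ : UU (n := n) σ L) : Fin n → K)) hx
    exact h4
  · intro x y hxy
    have h5 : g y = ⟨_, h3⟩ * g x * (⟨_, h3⟩ : stab (fix σ) (UU (n := n) σ L))⁻¹ := by
      apply Subtype.ext
      change op (fix σ) (f y) = (op (fix σ) T * su σ) * op (fix σ) (f x) *
        (op (fix σ) T * su σ)⁻¹
      rw [hxy, map_mul, map_mul, map_inv, ← su_conj]
      group
    rw [MonoidHom.comp_apply, MonoidHom.comp_apply, h5]
    simp only [map_mul, map_inv, MonoidHom.comp_apply]

/-- **Semilinear extensions.** -/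
theorem main {C : ∀ (G : Type) [Group G], Prop} (hC : ClosedE C)
    (G : Type) [Group G] (N : Subgroup G) [N.Normal] (hQ : C (G ⧸ N))
    (h : ∀ (g : G) (E : Set G), E.Finite → E ⊆ N →
      ∃ (K : Type) (_ : Field K) (n : ℕ)
        (f : ↥(Subgroup.closure (E ∪ (fun x => g * x * g⁻¹) '' E)) →* GL (Fin n) K)
        (σ : K ≃+* K) (T : GL (Fin n) K), (∀ m : ℕ, C (GL (Fin m) K)) ∧ Function.Injective f ∧
        (∀ x : K, ∃ m : ℕ, 0 < m ∧ (σ : K → K)^[m] x = x) ∧
        ∀ x y : ↥(Subgroup.closure (E ∪ (fun x => g * x * g⁻¹) '' E)),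
          (x : G) ∈ E → (y : G) = g * x * g⁻¹ →
            f y = T * Matrix.GeneralLinearGroup.map (σ : K →+* K) (f x) * T⁻¹) : C G := by
  refine Pool.Agent.R779.FJ.t_crit Pool.Agent.Y529.FJ.t_ext
    (Pool.Agent.Y961.FJ.t_perm Pool.Agent.Y529.FJ.t_ext) C hC G N hQ ?_
  intro g E hE hEN
  obtain ⟨K, _, n, f, σ, T, hK, hf, hσ, hfT⟩ := h g E hE hEN
  obtain ⟨m, F, p, hF, hFp⟩ := realize σ hσ f hf
    {x | (x : G) ∈ E ∪ (fun x => g * x * g⁻¹) '' E}
    (Set.Finite.preimage Subtype.val_injective.injOn (hE.union (hE.image _)))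
    (Subgroup.closure_closure_coe_preimage) T
  exact ⟨GL (Fin m) K, inferInstance, F, p, hK m, hF, fun x y hx hy => hFp x y (hfT x y hx hy)⟩

/-- The orbits of an automorphism of an algebraic extension of `ℚ` are finite. -/
theorem finite_orbit {K : Type} [Field K] [CharZero K] [Algebra.IsAlgebraic ℚ K] (σ : K ≃+* K)
    (x : K) : ∃ m : ℕ, 0 < m ∧ (σ : K → K)^[m] x = x := by
  have hint : IsIntegral ℚ x := Algebra.IsIntegral.isIntegral x
  have hroot : ∀ i : ℕ, (σ : K → K)^[i] x ∈ (minpoly ℚ x).rootSet K := by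
    intro i
    rw [mem_rootSet]
    refine ⟨minpoly.ne_zero hint, ?_⟩
    induction i with
    | zero => exact minpoly.aeval ℚ x
    | succ i ih =>
      rw [Function.iterate_succ_apply']
      have h1 := congrArg σ ih
      rw [map_zero] at h1
      rw [← h1]
      exact (Polynomial.aeval_algHom_apply (σ : K →+* K).toRatAlgHom _ _)
  have hfin := (minpoly ℚ x).rootSet_finite K
  obtain ⟨i, j, hij, hne⟩ : ∃ i j : ℕ, i < j ∧ (σ : K → K)^[i] x = (σ : K → K)^[j] x := by
    by_contra hcon
    push Not at hcon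
    have hinj : Function.Injective fun i : ℕ => (σ : K → K)^[i] x := by
      intro i j h
      rcases lt_trichotomy i j with h1 | h1 | h1
      · exact absurd h (hcon i j h1)
      · exact h1
      · exact absurd h.symm (hcon j i h1)
    exact Set.infinite_of_injective_forall_mem hinj hroot hfin
  refine ⟨j - i, by omega, ?_⟩
  apply (σ.injective.iterate i)
  rw [← Function.iterate_add_apply, hne]
  congr 2
  omega

/-- The global version. -/
theorem main_global {C : ∀ (G : Type) [Group G], Prop} (hC : ClosedE C)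
    (G : Type) [Group G] (N : Subgroup G) [N.Normal] (hQ : C (G ⧸ N))
    (K : Type) [Field K] (hK : ∀ m : ℕ, C (GL (Fin m) K)) (n : ℕ) (ι : N →* GL (Fin n) K)
    (hι : Function.Injective ι)
    (h : ∀ g : G, ∃ (σ : K ≃+* K) (T : GL (Fin n) K),
      (∀ x : K, ∃ m : ℕ, 0 < m ∧ (σ : K → K)^[m] x = x) ∧
      ∀ x y : N, (y : G) = g * x * g⁻¹ →
        ι y = T * Matrix.GeneralLinearGroup.map (σ : K →+* K) (ι x) * T⁻¹) : C G := by
  refine main hC G N hQ fun g E hE hEN => ?_
  obtain ⟨σ, T, hσ, hT⟩ := h g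
  have hle : Subgroup.closure (E ∪ (fun x => g * x * g⁻¹) '' E) ≤ N := by
    rw [Subgroup.closure_le]
    rintro x (hx | ⟨y, hy, rfl⟩)
    · exact hEN hx
    · exact Subgroup.Normal.conj_mem inferInstance y (hEN hy) g
  refine ⟨K, inferInstance, n, ι.comp (Subgroup.inclusion hle), σ, T, hK,
    hι.comp (Subgroup.inclusion_injective _), hσ, fun x y _ hxy => ?_⟩
  exact hT (Subgroup.inclusion hle x) (Subgroup.inclusion hle y) hxy

end Real

end Pool.Agent.R632.SL
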